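import Mathlib

/-!
# A generalised Langton ant whose recurrent set is an infinite strip

For the rule word `w = LR` (the mirror image of Langton's ant) we build a grid for which the set
of cells visited infinitely often is exactly `ℤ × {0, 1}`.  The ant sweeps back and forth inside the
strip `ℤ × {0, 1}`; at each end a 26-step gadget extends the swept part by two columns.
-/

namespace Pool.Agent.Results.MP_d11917_an.StripRecurrence

/-- The two letters of a rule word: `L` (counterclockwise) and `R` (clockwise). -/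
inductive Turn
  | L | R
  deriving DecidableEq

/-- The four directions: north `(0,1)`, east `(1,0)`, south `(0,-1)`, west `(-1,0)`. -/
inductive Dir
  | N | E | S | W
  deriving DecidableEq

/-- The unit vector of a direction. -/
def Dir.vec : Dir → ℤ × ℤ
  | .N => (0, 1)
  | .E => (1, 0)
  | .S => (0, -1)
  | .W => (-1, 0)

/-- A quarter turn clockwise. -/
def Dir.cw : Dir → Dir
  | .N => .E
  | .E => .S
  | .S => .W
  | .W => .N

/-- A quarter turn counterclockwise. -/
def Dir.ccw : Dir → Dir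
  | .N => .W
  | .W => .S
  | .S => .E
  | .E => .N

/-- Turn according to a letter: clockwise for `R`, counterclockwise for `L`. -/
def turn : Turn → Dir → Dir
  | .L, q => q.ccw
  | .R, q => q.cw

/-- An ant configuration: a grid of states in `{0, …, m-1}`, a position and a direction. -/
structure Conf (m : ℕ) where
  /-- the states of the cells -/
  grid : ℤ × ℤ → Fin m
  /-- the position of the ant -/
  pos : ℤ × ℤ
  /-- the direction of the ant -/
  dir : Dir

/-- One step of the generalised ant with rule word `w = w_0 … w_{m-1}`. -/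
def step {m : ℕ} [NeZero m] (w : Fin m → Turn) (C : Conf m) : Conf m :=
  ⟨Function.update C.grid C.pos (C.grid C.pos + 1),
    C.pos + (turn (w (C.grid C.pos)) C.dir).vec,
    turn (w (C.grid C.pos)) C.dir⟩

/-- The set of cells that the ant, started from `C`, visits infinitely often. -/
def Rec {m : ℕ} [NeZero m] (w : Fin m → Turn) (C : Conf m) : Set (ℤ × ℤ) :=
  {x | {t : ℕ | ((step w)^[t] C).pos = x}.Infinite}

/-- The rule word `LR`. -/
def wLR : Fin 2 → Turn := ![Turn.L, Turn.R]

/-! ### Symmetries -/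

/-- The half turn `(x, y) ↦ (-1 - x, 1 - y)` of the plane. -/
def rho (z : ℤ × ℤ) : ℤ × ℤ := (-1 - z.1, 1 - z.2)

/-- The opposite direction. -/
def opp : Dir → Dir
  | .N => .S
  | .S => .N
  | .E => .W
  | .W => .E

/-- The half turn acting on configurations. -/
def rotC (C : Conf 2) : Conf 2 := ⟨fun z => C.grid (rho z), rho C.pos, opp C.dir⟩

/-- The horizontal translation acting on configurations. -/
def trC (a : ℤ) (C : Conf 2) : Conf 2 :=
  ⟨fun z => C.grid (z.1 - a, z.2), (C.pos.1 + a, C.pos.2), C.dir⟩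

lemma rho_rho (z : ℤ × ℤ) : rho (rho z) = z := by
  unfold rho; ext <;> simp

lemma rotC_rotC (C : Conf 2) : rotC (rotC C) = C := by
  unfold rotC
  cases C with
  | mk g p q =>
    simp only [rho_rho, Conf.mk.injEq, true_and]
    cases q <;> rfl

lemma turn_opp (t : Turn) (q : Dir) : turn t (opp q) = opp (turn t q) := by
  cases t <;> cases q <;> rfl

lemma rho_add_vec (z : ℤ × ℤ) (q : Dir) : rho z + (opp q).vec = rho (z + q.vec) := by
  unfold rho
  cases q <;> ext <;> simp [opp, Dir.vec] <;> ring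

lemma step_rotC (C : Conf 2) : step wLR (rotC C) = rotC (step wLR C) := by
  unfold step rotC
  simp only [rho_rho, turn_opp, Conf.mk.injEq, and_true]
  refine ⟨?_, ?_⟩
  · funext z
    by_cases h : z = rho C.pos
    · subst h
      simp [rho_rho]
    · have h2 : rho z ≠ C.pos := by
        intro h3
        apply h
        rw [← h3, rho_rho]
      rw [Function.update_of_ne h, Function.update_of_ne h2]
  · exact rho_add_vec _ _

lemma iter_rotC (C : Conf 2) (t : ℕ) : (step wLR)^[t] (rotC C) = rotC ((step wLR)^[t] C) := by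
  induction t with
  | zero => rfl
  | succ t ih => rw [Function.iterate_succ_apply', ih, step_rotC, Function.iterate_succ_apply']

lemma step_trC (a : ℤ) (C : Conf 2) : step wLR (trC a C) = trC a (step wLR C) := by
  have hp : ((C.pos.1 + a - a, C.pos.2) : ℤ × ℤ) = C.pos := by ext <;> simp
  unfold step trC
  simp only [hp, Conf.mk.injEq, and_true]
  refine ⟨?_, ?_⟩
  · funext z
    by_cases h : z = (C.pos.1 + a, C.pos.2)
    · subst h
      simp
    · have h2 : (z.1 - a, z.2) ≠ C.pos := by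
        intro h3
        apply h
        rw [← h3]
        ext <;> simp
      rw [Function.update_of_ne h, Function.update_of_ne h2]
  · ext
    · simp; ring
    · simp

lemma iter_trC (a : ℤ) (C : Conf 2) (t : ℕ) :
    (step wLR)^[t] (trC a C) = trC a ((step wLR)^[t] C) := by
  induction t with
  | zero => rfl
  | succ t ih => rw [Function.iterate_succ_apply', ih, step_trC, Function.iterate_succ_apply']

/-! ### The sweep -/

lemma step_eq {g : ℤ × ℤ → Fin 2} {p : ℤ × ℤ} {q : Dir} (k : Fin 2) (hk : g p = k)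
    {g' : ℤ × ℤ → Fin 2} {p' : ℤ × ℤ} {q' : Dir}
    (hg' : Function.update g p (k + 1) = g') (hq : turn (wLR k) q = q') (hp : p + q'.vec = p') :
    step wLR ⟨g, p, q⟩ = ⟨g', p', q'⟩ := by
  subst hk hg' hq hp
  rfl

lemma four (g : ℤ × ℤ → Fin 2) (a : ℤ) (h00 : g (a, 0) = 0) (h01 : g (a, 1) = 1)
    (h11 : g (a + 1, 1) = 1) (h10 : g (a + 1, 0) = 0) :
    ((step wLR)^[1] ⟨g, (a, 0), .E⟩).pos = (a, 1) ∧
    ((step wLR)^[2] ⟨g, (a, 0), .E⟩).pos = (a + 1, 1) ∧
    ((step wLR)^[3] ⟨g, (a, 0), .E⟩).pos = (a + 1, 0) ∧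
    (step wLR)^[4] ⟨g, (a, 0), .E⟩ =
      ⟨Function.update (Function.update (Function.update (Function.update g (a, 0) 1)
        (a, 1) 0) (a + 1, 1) 0) (a + 1, 0) 1, (a + 2, 0), .E⟩ := by
  have e1 : step wLR ⟨g, (a, 0), .E⟩ = ⟨Function.update g (a, 0) 1, (a, 1), .N⟩ :=
    step_eq 0 h00 rfl rfl (by simp [Dir.vec])
  have e2 : step wLR ⟨Function.update g (a, 0) 1, (a, 1), .N⟩ =
      ⟨Function.update (Function.update g (a, 0) 1) (a, 1) 0, (a + 1, 1), .E⟩ :=
    step_eq 1 (by rw [Function.update_of_ne (by simp)]; exact h01) rfl rfl (by simp [Dir.vec])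
  have e3 : step wLR ⟨Function.update (Function.update g (a, 0) 1) (a, 1) 0, (a + 1, 1), .E⟩ =
      ⟨Function.update (Function.update (Function.update g (a, 0) 1) (a, 1) 0) (a + 1, 1) 0,
        (a + 1, 0), .S⟩ :=
    step_eq 1 (by
      rw [Function.update_of_ne (by simp), Function.update_of_ne (by simp)]; exact h11)
      rfl rfl (by simp [Dir.vec])
  have e4 : step wLR ⟨Function.update (Function.update (Function.update g (a, 0) 1) (a, 1) 0)
      (a + 1, 1) 0, (a + 1, 0), .S⟩ =
      ⟨Function.update (Function.update (Function.update (Function.update g (a, 0) 1)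
        (a, 1) 0) (a + 1, 1) 0) (a + 1, 0) 1, (a + 2, 0), .E⟩ :=
    step_eq 0 (by
      rw [Function.update_of_ne (by simp), Function.update_of_ne (by simp),
        Function.update_of_ne (by simp)]; exact h10)
      rfl rfl (by simp [Dir.vec]; ring)
  have f1 : (step wLR)^[1] ⟨g, (a, 0), .E⟩ = ⟨Function.update g (a, 0) 1, (a, 1), .N⟩ := e1
  have f2 : (step wLR)^[2] ⟨g, (a, 0), .E⟩ =
      ⟨Function.update (Function.update g (a, 0) 1) (a, 1) 0, (a + 1, 1), .E⟩ := by
    rw [Function.iterate_succ_apply', f1, e2]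
  have f3 : (step wLR)^[3] ⟨g, (a, 0), .E⟩ =
      ⟨Function.update (Function.update (Function.update g (a, 0) 1) (a, 1) 0) (a + 1, 1) 0,
        (a + 1, 0), .S⟩ := by
    rw [Function.iterate_succ_apply', f2, e3]
  have f4 : (step wLR)^[4] ⟨g, (a, 0), .E⟩ =
      ⟨Function.update (Function.update (Function.update (Function.update g (a, 0) 1)
        (a, 1) 0) (a + 1, 1) 0) (a + 1, 0) 1, (a + 2, 0), .E⟩ := by
    rw [Function.iterate_succ_apply', f3, e4]
  refine ⟨?_, ?_, ?_, f4⟩
  · rw [f1]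
  · rw [f2]
  · rw [f3]

/-- The grid after a sweep over the columns `a ≤ x < b`. -/
def swept (g : ℤ × ℤ → Fin 2) (a b : ℤ) : ℤ × ℤ → Fin 2 := fun z =>
  if a ≤ z.1 ∧ z.1 < b then (if z.2 = 0 then 1 else if z.2 = 1 then 0 else g z) else g z

lemma sweep (g : ℤ × ℤ → Fin 2) (a : ℤ) (k : ℕ)
    (hb : ∀ x : ℤ, a ≤ x → x < a + 2 * k → g (x, 0) = 0)
    (ht : ∀ x : ℤ, a ≤ x → x < a + 2 * k → g (x, 1) = 1) :
    (step wLR)^[4 * k] ⟨g, (a, 0), .E⟩ = ⟨swept g a (a + 2 * k), (a + 2 * k, 0), .E⟩ ∧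
    (∀ s < 4 * k, ((step wLR)^[s] ⟨g, (a, 0), .E⟩).pos.2 = 0 ∨
      ((step wLR)^[s] ⟨g, (a, 0), .E⟩).pos.2 = 1) ∧
    (∀ x : ℤ, a ≤ x → x < a + 2 * k → ∀ y : ℤ, y = 0 ∨ y = 1 →
      ∃ s < 4 * k, ((step wLR)^[s] ⟨g, (a, 0), .E⟩).pos = (x, y)) := by
  induction k with
  | zero =>
    refine ⟨?_, ?_, ?_⟩
    · simp only [Function.iterate_zero, id, Nat.cast_zero, mul_zero, add_zero,
        Conf.mk.injEq, and_true]
      funext z
      unfold swept
      rw [if_neg (by omega)]
    · intro s hs; omega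
    · intro x h1 h2; simp at h2; omega
  | succ k ih =>
    obtain ⟨ih1, ih2, ih3⟩ := ih (fun x h1 h2 => hb x h1 (by push_cast; omega))
      (fun x h1 h2 => ht x h1 (by push_cast; omega))
    set C : Conf 2 := ⟨g, (a, 0), .E⟩ with hC
    obtain ⟨p1, p2, p3, p4⟩ := four (swept g a (a + 2 * k)) (a + 2 * k)
      (by unfold swept; rw [if_neg (by simp)]; exact hb _ (by omega) (by push_cast; omega))
      (by unfold swept; rw [if_neg (by simp)]; exact ht _ (by omega) (by push_cast; omega))
      (by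
        unfold swept
        rw [if_neg (by simp only [not_and, not_lt]; intro _; omega)]
        exact ht _ (by omega) (by push_cast; omega))
      (by
        unfold swept
        rw [if_neg (by simp only [not_and, not_lt]; intro _; omega)]
        exact hb _ (by omega) (by push_cast; omega))
    have q : ∀ j : ℕ, (step wLR)^[4 * k + j] C =
        (step wLR)^[j] ⟨swept g a (a + 2 * k), (a + 2 * k, 0), .E⟩ := by
      intro j
      rw [add_comm, Function.iterate_add_apply, ih1]
    have q0 : ((step wLR)^[4 * k] C).pos = (a + 2 * k, 0) := by rw [ih1]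
    have q1 : ((step wLR)^[4 * k + 1] C).pos = (a + 2 * k, 1) := by rw [q, p1]
    have q2 : ((step wLR)^[4 * k + 2] C).pos = (a + 2 * k + 1, 1) := by rw [q, p2]
    have q3 : ((step wLR)^[4 * k + 3] C).pos = (a + 2 * k + 1, 0) := by rw [q, p3]
    refine ⟨?_, ?_, ?_⟩
    · have : 4 * (k + 1) = 4 * k + 4 := by ring
      rw [this, q, p4]
      have e : a + 2 * (k : ℤ) + 2 = a + 2 * ((k + 1 : ℕ) : ℤ) := by push_cast; ring
      rw [e]
      simp only [Conf.mk.injEq, and_true]
      funext z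
      obtain ⟨x, y⟩ := z
      have e2 : a + 2 * ((k + 1 : ℕ) : ℤ) = a + 2 * k + 2 := by push_cast; ring
      rw [e2]
      simp only [Function.update_apply, Prod.mk.injEq]
      unfold swept
      simp only
      by_cases hy0 : y = 0
      · subst hy0
        by_cases hx1 : x = a + 2 * k + 1
        · subst hx1
          simp
          omega
        · by_cases hx0 : x = a + 2 * k
          · subst hx0; simp
          · have : (a ≤ x ∧ x < a + 2 * k) ↔ (a ≤ x ∧ x < a + 2 * k + 2) := by
              constructor <;> intro h <;> omega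
            simp [hx1, hx0, this]
      · by_cases hy1 : y = 1
        · subst hy1
          by_cases hx1 : x = a + 2 * k + 1
          · subst hx1
            simp
            omega
          · by_cases hx0 : x = a + 2 * k
            · subst hx0; simp
            · have : (a ≤ x ∧ x < a + 2 * k) ↔ (a ≤ x ∧ x < a + 2 * k + 2) := by
                constructor <;> intro h <;> omega
              simp [hx1, hx0, this]
        · simp [hy0, hy1]
    · intro s hs
      by_cases h : s < 4 * k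
      · exact ih2 s h
      · have : s = 4 * k ∨ s = 4 * k + 1 ∨ s = 4 * k + 2 ∨ s = 4 * k + 3 := by omega
        rcases this with h | h | h | h <;> subst h
        · rw [q0]; simp
        · rw [q1]; simp
        · rw [q2]; simp
        · rw [q3]; simp
    · intro x h1 h2 y hy
      by_cases hx : x < a + 2 * k
      · obtain ⟨s, hs, hs2⟩ := ih3 x h1 hx y hy
        exact ⟨s, by omega, hs2⟩
      · have hx2 : x = a + 2 * k ∨ x = a + 2 * k + 1 := by push_cast at h2; omega
        rcases hx2 with h | h <;> rcases hy with h' | h' <;> subst h <;> subst h'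
        · exact ⟨4 * k, by omega, q0⟩
        · exact ⟨4 * k + 1, by omega, q1⟩
        · exact ⟨4 * k + 3, by omega, q3⟩
        · exact ⟨4 * k + 2, by omega, q2⟩

/-! ### The gadget -/

/-- The state of a fresh cell, as a function of the distance to the frontier. -/
def fresh (x y : ℤ) : Fin 2 :=
  if y = 1 ∨ y = 0 ∨ y = -2 then (if x % 2 = 1 then 1 else 0)
  else if y = -1 then (if x % 2 = 1 then 0 else 1) else 0

/-- The cells near the frontier whose state is not the fresh one. -/
def defect (x y : ℤ) : Bool :=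
  (x == 2 && (y == 1 || y == 0)) ||
  (x == 1 && (y == 2 || y == 1 || y == 0 || y == -1)) ||
  (x == 0 && (y == 2 || y == 0 || y == -1 || y == -2))

/-- The profile of the grid beyond the frontier. -/
def P (x y : ℤ) : Fin 2 := if defect x y then fresh x y + 1 else fresh x y

/-- Overlay of finitely many values on a grid. -/
def ov : List ((ℤ × ℤ) × Fin 2) → (ℤ × ℤ → Fin 2) → (ℤ × ℤ → Fin 2)
  | [], g => g
  | (p, v) :: l, g => fun z => if z = p then v else ov l g z

/-- The box in which the gadget takes place. -/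
def inBox (p : ℤ × ℤ) : Bool := decide (0 ≤ p.1 ∧ p.1 ≤ 4 ∧ -2 ≤ p.2 ∧ p.2 ≤ 2)

/-- The start of a path, or the given end state if the path is empty. -/
def hd (path : List ((ℤ × ℤ) × Dir × Fin 2)) (e : (ℤ × ℤ) × Dir) : (ℤ × ℤ) × Dir :=
  match path with
  | [] => e
  | (p, q, _) :: _ => (p, q)

/-- Check of a path (positions, directions and states read) against the profile. -/
def chk : List ((ℤ × ℤ) × Fin 2) → List ((ℤ × ℤ) × Dir × Fin 2) → (ℤ × ℤ) × Dir → Bool
  | _, [], _ => true
  | l, (p, q, k) :: rest, e =>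
    inBox p && (ov l (fun z => P z.1 z.2) p == k) && (decide (turn (wLR k) q = (hd rest e).2)) &&
      (decide (p + (hd rest e).2.vec = (hd rest e).1)) && chk ((p, k + 1) :: l) rest e

/-- The overlay obtained after a path. -/
def upd : List ((ℤ × ℤ) × Fin 2) → List ((ℤ × ℤ) × Dir × Fin 2) → List ((ℤ × ℤ) × Fin 2)
  | l, [] => l
  | l, (p, _, k) :: rest => upd ((p, k + 1) :: l) rest

lemma ov_congr (l : List ((ℤ × ℤ) × Fin 2)) (g g' : ℤ × ℤ → Fin 2) (z : ℤ × ℤ)
    (h : g z = g' z) : ov l g z = ov l g' z := by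
  induction l with
  | nil => exact h
  | cons a l ih =>
    obtain ⟨p, v⟩ := a
    simp only [ov]
    split_ifs <;> simp [ih]

lemma ov_cons (l : List ((ℤ × ℤ) × Fin 2)) (g : ℤ × ℤ → Fin 2) (p : ℤ × ℤ) (v : Fin 2) :
    Function.update (ov l g) p v = ov ((p, v) :: l) g := by
  funext z
  simp only [ov, Function.update_apply]

lemma chk_spec (g : ℤ × ℤ → Fin 2) (hg : ∀ x y : ℤ, 0 ≤ x → g (x, y) = P x y)
    (e : (ℤ × ℤ) × Dir) :
    ∀ (path : List ((ℤ × ℤ) × Dir × Fin 2)) (l : List ((ℤ × ℤ) × Fin 2)),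
      chk l path e = true →
      (step wLR)^[path.length] ⟨ov l g, (hd path e).1, (hd path e).2⟩ =
        ⟨ov (upd l path) g, e.1, e.2⟩ ∧
      ∀ s < path.length,
        inBox ((step wLR)^[s] ⟨ov l g, (hd path e).1, (hd path e).2⟩).pos = true := by
  intro path
  induction path with
  | nil =>
    intro l _
    exact ⟨rfl, fun s hs => by simp at hs⟩
  | cons a rest ih =>
    intro l h
    obtain ⟨p, q, k⟩ := a
    simp only [chk, Bool.and_eq_true, decide_eq_true_eq, beq_iff_eq] at h
    obtain ⟨⟨⟨⟨hb, hk⟩, hq⟩, hp⟩, hr⟩ := h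
    have hread : ov l g p = k := by
      rw [← hk]
      apply ov_congr
      have : 0 ≤ p.1 := by
        simp only [inBox, decide_eq_true_eq] at hb
        exact hb.1
      have := hg p.1 p.2 this
      simpa using this
    have hstep : step wLR ⟨ov l g, p, q⟩ =
        ⟨ov ((p, k + 1) :: l) g, (hd rest e).1, (hd rest e).2⟩ :=
      step_eq _ hread (ov_cons _ _ _ _) hq hp
    obtain ⟨i1, i2⟩ := ih _ hr
    refine ⟨?_, ?_⟩
    · simp only [List.length_cons, hd, upd]
      rw [Function.iterate_succ_apply, hstep]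
      exact i1
    · intro s hs
      simp only [hd]
      cases s with
      | zero => exact hb
      | succ s =>
        rw [Function.iterate_succ_apply, hstep]
        exact i2 s (by simpa using hs)

/-- The path of the gadget. -/
def gpath : List ((ℤ × ℤ) × Dir × Fin 2) :=
  [((0, 0), .E, 1),
   ((0, -1), .S, 0),
   ((1, -1), .E, 1),
   ((1, -2), .S, 1),
   ((0, -2), .W, 1),
   ((0, -1), .N, 1),
   ((1, -1), .E, 0),
   ((1, 0), .N, 0),
   ((0, 0), .W, 0),
   ((0, -1), .S, 0),
   ((1, -1), .E, 1),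
   ((1, -2), .S, 0),
   ((2, -2), .E, 0),
   ((2, -1), .N, 1),
   ((3, -1), .E, 0),
   ((3, 0), .N, 1),
   ((4, 0), .E, 0),
   ((4, 1), .N, 0),
   ((3, 1), .W, 1),
   ((3, 2), .N, 0),
   ((2, 2), .W, 0),
   ((2, 1), .S, 1),
   ((1, 1), .W, 0),
   ((1, 0), .S, 1),
   ((0, 0), .W, 1),
   ((0, 1), .N, 0)]

/-- The list of updates made by the gadget. -/
def gl : List ((ℤ × ℤ) × Fin 2) := upd [] gpath

lemma chk_gadget : chk [] gpath ((-1, 1), .W) = true := by
  decide +kernel

lemma gl_notin : ∀ z ∈ gl.map Prod.fst, inBox z = true := by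
  decide +kernel

lemma ov_notin (l : List ((ℤ × ℤ) × Fin 2)) (g : ℤ × ℤ → Fin 2) (z : ℤ × ℤ)
    (h : z ∉ l.map Prod.fst) : ov l g z = g z := by
  induction l with
  | nil => rfl
  | cons a l ih =>
    obtain ⟨p, v⟩ := a
    simp only [List.map_cons, List.mem_cons, not_or] at h
    simp only [ov]
    rw [if_neg h.1, ih h.2]

lemma gl_final : ∀ x ∈ Finset.Icc (2 : ℤ) 4, ∀ y ∈ Finset.Icc (-2 : ℤ) 2,
    ov gl (fun z => P z.1 z.2) (x, y) = P (x - 2) y := by
  decide +kernel

lemma gl_final2 : ∀ x ∈ Finset.Icc (0 : ℤ) 1,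
    ov gl (fun z => P z.1 z.2) (x, 0) = 0 ∧ ov gl (fun z => P z.1 z.2) (x, 1) = 1 := by
  decide +kernel

lemma P_shift (x y : ℤ) (hx : 2 ≤ x) (h : ¬ (x ≤ 4 ∧ -2 ≤ y ∧ y ≤ 2)) : P x y = P (x - 2) y := by
  have h1 : fresh x y = fresh (x - 2) y := by
    unfold fresh
    have : (x - 2) % 2 = x % 2 := by omega
    rw [this]
  have h2 : defect x y = false := by
    unfold defect
    simp only [Bool.or_eq_false_iff, Bool.and_eq_false_iff, beq_eq_false_iff_ne]
    omega
  have h3 : defect (x - 2) y = false := by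
    unfold defect
    simp only [Bool.or_eq_false_iff, Bool.and_eq_false_iff, beq_eq_false_iff_ne]
    omega
  unfold P
  rw [h1, h2, h3]

lemma gadget (g : ℤ × ℤ → Fin 2) (hg : ∀ x y : ℤ, 0 ≤ x → g (x, y) = P x y) :
    ∃ g' : ℤ × ℤ → Fin 2, (step wLR)^[26] ⟨g, (0, 0), .E⟩ = ⟨g', (-1, 1), .W⟩ ∧
      (∀ x y : ℤ, x < 0 → g' (x, y) = g (x, y)) ∧
      (∀ x y : ℤ, 2 ≤ x → g' (x, y) = P (x - 2) y) ∧
      (∀ x : ℤ, 0 ≤ x → x < 2 → g' (x, 0) = 0 ∧ g' (x, 1) = 1) ∧
      ∀ s < 26, inBox ((step wLR)^[s] ⟨g, (0, 0), .E⟩).pos = true := by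
  obtain ⟨h1, h2⟩ := chk_spec g hg ((-1, 1), .W) gpath [] chk_gadget
  refine ⟨ov gl g, h1, ?_, ?_, ?_, h2⟩
  · intro x y hx
    apply ov_notin
    intro hm
    have := gl_notin _ hm
    simp only [inBox, decide_eq_true_eq] at this
    omega
  · intro x y hx
    have e : ov gl g (x, y) = ov gl (fun z => P z.1 z.2) (x, y) :=
      ov_congr _ _ _ _ (hg x y (by omega))
    rw [e]
    by_cases h : x ≤ 4 ∧ -2 ≤ y ∧ y ≤ 2
    · exact gl_final x (by simp; omega) y (by simp; omega)
    · rw [ov_notin]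
      · exact P_shift x y hx h
      · intro hm
        have := gl_notin _ hm
        simp only [inBox, decide_eq_true_eq] at this
        omega
  · intro x h1 h2
    have := gl_final2 x (by simp; omega)
    constructor
    · rw [ov_congr gl g (fun z => P z.1 z.2) (x, 0) (hg x 0 h1)]; exact this.1
    · rw [ov_congr gl g (fun z => P z.1 z.2) (x, 1) (hg x 1 h1)]; exact this.2

/-! ### Phases -/

/-- The state of the system before a sweep to the right, with right frontier `2 * n` and left end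
`-2 * m` of the swept strip. -/
structure J (n m : ℕ) (C : Conf 2) : Prop where
  pos : C.pos = (-2 * (m : ℤ), 0)
  dir : C.dir = .E
  bot : ∀ x : ℤ, -2 * (m : ℤ) ≤ x → x < 2 * n → C.grid (x, 0) = 0
  top : ∀ x : ℤ, -2 * (m : ℤ) ≤ x → x < 2 * n → C.grid (x, 1) = 1
  right : ∀ x y : ℤ, 2 * (n : ℤ) ≤ x → C.grid (x, y) = P (x - 2 * n) y
  lbot : ∀ x : ℤ, -2 * (m : ℤ) - 2 ≤ x → x < -2 * (m : ℤ) → C.grid (x, 0) = 1
  ltop : ∀ x : ℤ, -2 * (m : ℤ) - 2 ≤ x → x < -2 * (m : ℤ) → C.grid (x, 1) = 0
  left : ∀ x y : ℤ, x < -2 * (m : ℤ) - 2 → C.grid (x, y) = P (-1 - x - 2 * (m + 1)) (1 - y)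

lemma phase (n m : ℕ) (C : Conf 2) (h : J n m C) :
    ∃ t : ℕ, 0 < t ∧ J (m + 1) n (rotC ((step wLR)^[t] C)) ∧
      (∀ s < t, (-2 ≤ ((step wLR)^[s] C).pos.2 ∧ ((step wLR)^[s] C).pos.2 ≤ 2) ∧
        (((step wLR)^[s] C).pos.2 = 0 ∨ ((step wLR)^[s] C).pos.2 = 1 ∨
          2 * (n : ℤ) ≤ ((step wLR)^[s] C).pos.1)) ∧
      (∀ x : ℤ, -2 * (m : ℤ) ≤ x → x < 2 * n → ∀ y : ℤ, y = 0 ∨ y = 1 →
        ∃ s < t, ((step wLR)^[s] C).pos = (x, y)) := by
  obtain ⟨hpos, hdir, hbot, htop, hright, hlbot, hltop, hleft⟩ := h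
  obtain ⟨g, p, q⟩ := C
  simp only at hpos hdir hbot htop hright hlbot hltop hleft
  subst hpos hdir
  have hend : -2 * (m : ℤ) + 2 * ((m + n : ℕ) : ℤ) = 2 * n := by push_cast; ring
  obtain ⟨s1, s2, s3⟩ := sweep g (-2 * (m : ℤ)) (m + n)
    (fun x h1 h2 => hbot x h1 (by rw [hend] at h2; exact h2))
    (fun x h1 h2 => htop x h1 (by rw [hend] at h2; exact h2))
  rw [hend] at s1 s3
  set C : Conf 2 := ⟨g, (-2 * (m : ℤ), 0), .E⟩ with hC
  obtain ⟨g', e1, e2, e3, e4, e5⟩ := gadget
    (fun z => swept g (-2 * (m : ℤ)) (2 * n) (z.1 + 2 * n, z.2)) (by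
      intro x y hx
      simp only [swept]
      rw [if_neg (by omega), hright _ _ (by omega)]
      congr 1
      ring)
  have htr : (⟨swept g (-2 * (m : ℤ)) (2 * n), (2 * (n : ℤ), 0), .E⟩ : Conf 2) =
      trC (2 * n) ⟨fun z => swept g (-2 * (m : ℤ)) (2 * n) (z.1 + 2 * n, z.2), (0, 0), .E⟩ := by
    unfold trC
    simp
  have hj : ∀ j : ℕ, (step wLR)^[4 * (m + n) + j] C =
      trC (2 * n) ((step wLR)^[j]
        ⟨fun z => swept g (-2 * (m : ℤ)) (2 * n) (z.1 + 2 * n, z.2), (0, 0), .E⟩) := by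
    intro j
    rw [add_comm, Function.iterate_add_apply, s1, htr, iter_trC]
  refine ⟨4 * (m + n) + 26, by omega, ?_, ?_, ?_⟩
  · rw [hj, e1]
    have hg1 : ∀ x y : ℤ, x < 2 * n → g' (x - 2 * n, y) =
        swept g (-2 * (m : ℤ)) (2 * n) (x, y) := by
      intro x y hx
      rw [e2 _ _ (by omega)]
      simp
    constructor
    · simp [rotC, trC, rho]
    · rfl
    · intro x h1 h2
      simp only [rotC, trC, rho]
      push_cast at h2
      rw [hg1 _ _ (by omega)]
      simp only [swept]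
      by_cases hc : -2 * (m : ℤ) ≤ -1 - x
      · rw [if_pos (by omega)]; simp
      · rw [if_neg (by omega)]
        have := hltop (-1 - x) (by omega) (by omega)
        simpa using this
    · intro x h1 h2
      simp only [rotC, trC, rho]
      push_cast at h2
      rw [hg1 _ _ (by omega)]
      simp only [swept]
      by_cases hc : -2 * (m : ℤ) ≤ -1 - x
      · rw [if_pos (by omega)]; simp
      · rw [if_neg (by omega)]
        have := hlbot (-1 - x) (by omega) (by omega)
        simpa using this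
    · intro x y h1
      simp only [rotC, trC, rho]
      push_cast at h1
      rw [hg1 _ _ (by omega)]
      simp only [swept]
      rw [if_neg (by omega), hleft _ _ (by omega)]
      congr 1
      · push_cast; ring
      · ring
    · intro x h1 h2
      simp only [rotC, trC, rho]
      have := (e4 (-1 - x - 2 * n) (by omega) (by omega)).2
      simpa using this
    · intro x h1 h2
      simp only [rotC, trC, rho]
      have := (e4 (-1 - x - 2 * n) (by omega) (by omega)).1
      simpa using this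
    · intro x y h1
      simp only [rotC, trC, rho]
      rw [e3 _ _ (by omega)]
      congr 1
      ring
  · intro s hs
    by_cases h : s < 4 * (m + n)
    · have := s2 s h
      constructor
      · omega
      · omega
    · obtain ⟨j, rfl⟩ : ∃ j, s = 4 * (m + n) + j := ⟨s - 4 * (m + n), by omega⟩
      have := e5 j (by omega)
      rw [hj]
      simp only [inBox, decide_eq_true_eq] at this
      simp only [trC]
      omega
  · intro x h1 h2 y hy
    obtain ⟨s, hs, hs2⟩ := s3 x h1 h2 y hy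
    exact ⟨s, by omega, hs2⟩

lemma phase2 (n m : ℕ) (C : Conf 2) (h : J n m C) :
    ∃ t : ℕ, 0 < t ∧ J (n + 1) (m + 1) ((step wLR)^[t] C) ∧
      (∀ s < t, (-2 ≤ ((step wLR)^[s] C).pos.2 ∧ ((step wLR)^[s] C).pos.2 ≤ 3) ∧
        (((step wLR)^[s] C).pos.2 = 0 ∨ ((step wLR)^[s] C).pos.2 = 1 ∨
          2 * (n : ℤ) ≤ ((step wLR)^[s] C).pos.1 ∨
          ((step wLR)^[s] C).pos.1 < -2 * (m : ℤ))) ∧
      (∀ x : ℤ, -2 * (m : ℤ) ≤ x → x < 2 * n → ∀ y : ℤ, y = 0 ∨ y = 1 →
        ∃ s < t, ((step wLR)^[s] C).pos = (x, y)) := by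
  obtain ⟨t1, h1, h2, h3, h4⟩ := phase n m C h
  obtain ⟨t2, k1, k2, k3, k4⟩ := phase (m + 1) n _ h2
  have hj : ∀ j : ℕ, (step wLR)^[j] (rotC ((step wLR)^[t1] C)) =
      rotC ((step wLR)^[t1 + j] C) := by
    intro j
    rw [iter_rotC, add_comm t1 j, Function.iterate_add_apply]
  refine ⟨t1 + t2, by omega, ?_, ?_, ?_⟩
  · rw [hj, rotC_rotC] at k2
    exact k2
  · intro s hs
    by_cases h : s < t1
    · have := h3 s h
      constructor
      · omega
      · omega
    · obtain ⟨j, rfl⟩ : ∃ j, s = t1 + j := ⟨s - t1, by omega⟩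
      have := k3 j (by omega)
      rw [hj] at this
      simp only [rotC, rho] at this
      push_cast at this
      constructor
      · omega
      · omega
  · intro x hx1 hx2 y hy
    obtain ⟨s, hs, hs2⟩ := h4 x hx1 hx2 y hy
    exact ⟨s, by omega, hs2⟩

lemma phases (C : Conf 2) (h : J 0 0 C) (k : ℕ) :
    ∃ T : ℕ, k ≤ T ∧ J k k ((step wLR)^[T] C) := by
  induction k with
  | zero => exact ⟨0, le_refl _, h⟩
  | succ k ih =>
    obtain ⟨T, hT, hJ⟩ := ih
    obtain ⟨t, h1, h2, -, -⟩ := phase2 k k _ hJ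
    refine ⟨t + T, by omega, ?_⟩
    rw [Function.iterate_add_apply]
    exact h2

lemma away (K : ℕ) : ∀ (s n m : ℕ) (C : Conf 2), J n m C → K ≤ n → K ≤ m →
    (-2 ≤ ((step wLR)^[s] C).pos.2 ∧ ((step wLR)^[s] C).pos.2 ≤ 3) ∧
      (((step wLR)^[s] C).pos.2 = 0 ∨ ((step wLR)^[s] C).pos.2 = 1 ∨
        2 * (K : ℤ) ≤ ((step wLR)^[s] C).pos.1 ∨ ((step wLR)^[s] C).pos.1 < -2 * (K : ℤ)) := by
  intro s
  induction s using Nat.strong_induction_on with
  | _ s ih =>
    intro n m C h hn hm
    obtain ⟨t, h1, h2, h3, -⟩ := phase2 n m C h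
    by_cases hs : s < t
    · have := h3 s hs
      constructor
      · omega
      · omega
    · obtain ⟨j, rfl⟩ : ∃ j, s = j + t := ⟨s - t, by omega⟩
      rw [Function.iterate_add_apply]
      exact ih j (by omega) (n + 1) (m + 1) _ h2 (by omega) (by omega)

/-- The initial configuration. -/
def C0 : Conf 2 where
  grid := fun z =>
    if 0 ≤ z.1 then P z.1 z.2
    else if -2 ≤ z.1 then (if z.2 = 0 then 1 else 0)
    else P (-3 - z.1) (1 - z.2)
  pos := (0, 0)
  dir := .E

lemma J_C0 : J 0 0 C0 := by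
  constructor
  · rfl
  · rfl
  · intro x h1 h2; simp at h1 h2; omega
  · intro x h1 h2; simp at h1 h2; omega
  · intro x y hx
    simp at hx
    simp [C0, hx]
  · intro x h1 h2
    simp at h1 h2
    simp only [C0]
    rw [if_neg (by omega), if_pos (by omega)]
    simp
  · intro x h1 h2
    simp at h1 h2
    simp only [C0]
    rw [if_neg (by omega), if_pos (by omega)]
    simp
  · intro x y hx
    simp at hx
    simp only [C0]
    rw [if_neg (by omega), if_neg (by omega)]
    congr 1
    simp; ring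

lemma rec_C0 : Rec wLR C0 = {z : ℤ × ℤ | z.2 = 0 ∨ z.2 = 1} := by
  ext z
  obtain ⟨x, y⟩ := z
  simp only [Rec, Set.mem_ofPred_eq]
  constructor
  · intro hinf
    by_contra hy
    obtain ⟨T, -, hJ⟩ := phases C0 J_C0 (x.natAbs + 1)
    apply hinf
    apply (Set.finite_lt_nat T).subset
    intro t ht
    simp only [Set.mem_ofPred_eq] at ht ⊢
    by_contra hlt
    obtain ⟨j, rfl⟩ : ∃ j, t = j + T := ⟨t - T, by omega⟩
    have := (away (x.natAbs + 1) j _ _ _ hJ (le_refl _) (le_refl _)).2
    rw [← Function.iterate_add_apply, ht] at this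
    omega
  · intro hy
    rw [Set.infinite_iff_exists_gt]
    intro N
    obtain ⟨T, hT, hJ⟩ := phases C0 J_C0 (x.natAbs + 1 + N)
    obtain ⟨t, -, -, -, h4⟩ := phase2 _ _ _ hJ
    obtain ⟨s, -, hs⟩ := h4 x (by omega) (by omega) y hy
    refine ⟨s + T, ?_, by omega⟩
    simp only [Set.mem_ofPred_eq]
    rw [Function.iterate_add_apply]
    exact hs

/-- **Negative answer.**  For the rule word `LR` there is a configuration whose set of recurrent
cells is exactly the strip `ℤ × {0, 1}` and whose ant never leaves the strip `-2 ≤ y ≤ 3`; so it is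
false that for every non-trivial rule word and every configuration the set of recurrent cells is
empty or everything. -/
theorem result :
    (∃ C : Conf 2, Rec ![Turn.L, Turn.R] C = {z : ℤ × ℤ | z.2 = 0 ∨ z.2 = 1} ∧
      ∀ t : ℕ, -2 ≤ ((step ![Turn.L, Turn.R])^[t] C).pos.2 ∧
        ((step ![Turn.L, Turn.R])^[t] C).pos.2 ≤ 3) ∧
    ¬ ∀ (m : ℕ) [NeZero m] (w : Fin m → Turn), (∃ i, w i = Turn.L) → (∃ i, w i = Turn.R) →
      ∀ C : Conf m, Rec w C = ∅ ∨ Rec w C = Set.univ := by
  refine ⟨⟨C0, rec_C0, fun t => (away 0 t 0 0 C0 J_C0 (le_refl _) (le_refl _)).1⟩, ?_⟩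
  intro h
  have h1 : Rec wLR C0 = ∅ ∨ Rec wLR C0 = Set.univ := h 2 wLR ⟨0, rfl⟩ ⟨1, rfl⟩ C0
  rw [rec_C0] at h1
  rcases h1 with h1 | h1
  · have : ((0, 0) : ℤ × ℤ) ∈ ({z : ℤ × ℤ | z.2 = 0 ∨ z.2 = 1} : Set (ℤ × ℤ)) := by simp
    rw [h1] at this
    exact this
  · have : ((0, 2) : ℤ × ℤ) ∈ ({z : ℤ × ℤ | z.2 = 0 ∨ z.2 = 1} : Set (ℤ × ℤ)) := by
      rw [h1]; trivial
    simp at this

end Pool.Agent.Results.MP_d11917_an.StripRecurrence
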